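import Pool.Agent.Lib_helper91.Dbi.Main
import Pool.Agent.Lib_helper91.Dbi.Bdry

/-!
# Sup-norm estimates for `∂̄` on smooth bounded convex domains in `ℂ²`

Bounded measurable `(0,1)`-forms, `∂̄` in the sense of distributions.
-/

set_option autoImplicit false

open MeasureTheory Set Filter Topology
open scoped ENNReal NNReal ContDiff

namespace Pool.Agent.Results.MP_26d61a_an.BoundedForms

/-- The space `ℂ²`. (`fderiv ℝ` is the real derivative, `volume` is Lebesgue measure on `ℝ⁴`.) -/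
abbrev C2 : Type := Fin 2 → ℂ

/-- The Wirtinger derivative `∂φ/∂z̄_j` at `x`: with `z_j = x_j + i y_j` it is
`(1/2) (∂φ/∂x_j + i ∂φ/∂y_j)`. -/
noncomputable def dzbar (j : Fin 2) (φ : C2 → ℂ) (x : C2) : ℂ :=
  (1 / 2 : ℂ) * (fderiv ℝ φ x (Pi.single j (1 : ℂ)) +
    Complex.I * fderiv ℝ φ x (Pi.single j Complex.I))

/-- Test functions on `Ω`: smooth complex valued functions with compact support inside `Ω`. -/
structure IsTest (Ω : Set C2) (φ : C2 → ℂ) : Prop where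
  /-- `φ` is of class `C^∞`. -/
  smooth : ContDiff ℝ ((⊤ : ℕ∞) : WithTop ℕ∞) φ
  /-- The support of `φ` is compact. -/
  compact : HasCompactSupport φ
  /-- The support of `φ` is contained in `Ω`. -/
  inside : tsupport φ ⊆ Ω

/-- The `(0,1)`-form `f = f 0 dz̄_1 + f 1 dz̄_2` is closed on `Ω` in the sense of distributions:
`∂(f 1)/∂z̄_1 = ∂(f 0)/∂z̄_2`. -/
def IsClosedForm (Ω : Set C2) (f : Fin 2 → C2 → ℂ) : Prop :=
  ∀ φ : C2 → ℂ, IsTest Ω φ →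
    ∫ x in Ω, f 1 x * dzbar 0 φ x = ∫ x in Ω, f 0 x * dzbar 1 φ x

/-- `∂̄u = f` on `Ω` in the sense of distributions: `∂u/∂z̄_j = f j` for `j = 0, 1`. -/
def DbarEq (Ω : Set C2) (u : C2 → ℂ) (f : Fin 2 → C2 → ℂ) : Prop :=
  ∀ φ : C2 → ℂ, IsTest Ω φ → ∀ j : Fin 2,
    ∫ x in Ω, u x * dzbar j φ x = - ∫ x in Ω, f j x * φ x

/-- The norm `‖f‖_∞ = ess sup_Ω (|f 0|² + |f 1|²)^{1/2}` of a `(0,1)`-form. -/
noncomputable def formNorm (Ω : Set C2) (f : Fin 2 → C2 → ℂ) : ℝ≥0∞ :=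
  eLpNorm (fun x => Real.sqrt (‖f 0 x‖ ^ 2 + ‖f 1 x‖ ^ 2)) ⊤ (volume.restrict Ω)

/-- `Ω = {ρ < 0}` for a real function `ρ` of class `C^∞` in a neighbourhood `U` of the closure of
`Ω`, with `dρ ≠ 0` on the boundary of `Ω`. -/
def HasSmoothBoundary (Ω : Set C2) : Prop :=
  ∃ (U : Set C2) (ρ : C2 → ℝ), IsOpen U ∧ closure Ω ⊆ U ∧
    ContDiffOn ℝ ((⊤ : ℕ∞) : WithTop ℕ∞) ρ U ∧ Ω = {x | x ∈ U ∧ ρ x < 0} ∧
    ∀ x ∈ frontier Ω, fderiv ℝ ρ x ≠ 0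

/-- `∂̄` is solvable with sup-norm estimates on `Ω`. -/
def SolvableWithSupNormEstimates (Ω : Set C2) : Prop :=
  ∃ C : ℝ≥0, ∀ f : Fin 2 → C2 → ℂ, (∀ j, MemLp (f j) ⊤ (volume.restrict Ω)) →
    IsClosedForm Ω f →
    ∃ u : C2 → ℂ, MemLp u ⊤ (volume.restrict Ω) ∧ DbarEq Ω u f ∧
      eLpNorm u ⊤ (volume.restrict Ω) ≤ C * formNorm Ω f

lemma le_sqrt_left (a b : ℝ) (_ha : 0 ≤ a) : a ≤ Real.sqrt (a ^ 2 + b ^ 2) := by
  refine Real.le_sqrt_of_sq_le ?_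
  nlinarith [sq_nonneg b]

lemma le_sqrt_right (a b : ℝ) (_hb : 0 ≤ b) : b ≤ Real.sqrt (a ^ 2 + b ^ 2) := by
  refine Real.le_sqrt_of_sq_le ?_
  nlinarith [sq_nonneg a]

lemma formNorm_lt_top {Ω : Set C2} {f : Fin 2 → C2 → ℂ}
    (hf : ∀ j, MemLp (f j) ⊤ (volume.restrict Ω)) : formNorm Ω f < ⊤ := by
  have h1 : MemLp (fun x => ‖f 0 x‖ + ‖f 1 x‖) ⊤ (volume.restrict Ω) :=
    (hf 0).norm.add (hf 1).norm
  refine (eLpNorm_mono_real (fun x => ?_)).trans_lt h1.eLpNorm_lt_top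
  rw [Real.norm_of_nonneg (Real.sqrt_nonneg _)]
  refine Real.sqrt_le_iff.2 ⟨by positivity, ?_⟩
  nlinarith [mul_nonneg (norm_nonneg (f 0 x)) (norm_nonneg (f 1 x))]

/-- On every bounded convex domain in `ℂ²` with `C^∞` boundary, `∂̄` is solvable with sup-norm
estimates: every bounded measurable `(0,1)`-form `f` with `∂̄f = 0` in the sense of distributions is
`∂̄u` with `‖u‖_∞ ≤ C(Ω) ‖f‖_∞`. -/
theorem result : ∀ Ω : Set C2, Bornology.IsBounded Ω → Convex ℝ Ω → HasSmoothBoundary Ω →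
    SolvableWithSupNormEstimates Ω := by
  intro Ω hb hc ⟨U, ρ, hU, hclU, hρ, hΩρ, hd⟩
  obtain ⟨ρ', hρ', hΩρ', hd'⟩ := Dbi.extend_rho hb hU hclU hρ hΩρ hd
  have hΩ : IsOpen Ω := by
    rw [hΩρ']; exact isOpen_lt hρ'.continuous continuous_const
  rcases Ω.eq_empty_or_nonempty with he | hne
  · subst he
    refine ⟨0, fun f hf hcl => ⟨fun _ => 0, MemLp.zero', fun φ hφ j => ?_, ?_⟩⟩
    · simp
    · simp
  obtain ⟨C, hC0, hC⟩ := Db.main_assembly Ω hΩ hne hb hc ⟨ρ', hρ', hΩρ', hd'⟩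
  refine ⟨C.toNNReal, fun f hf hcl => ?_⟩
  have hfin := formNorm_lt_top hf
  set M : ℝ := (formNorm Ω f).toReal with hM
  have hae : ∀ᵐ x ∂(volume.restrict Ω), Real.sqrt (‖f 0 x‖ ^ 2 + ‖f 1 x‖ ^ 2) ≤ M := by
    have h1 := ae_le_eLpNormEssSup (f := fun x => Real.sqrt (‖f 0 x‖ ^ 2 + ‖f 1 x‖ ^ 2))
      (μ := volume.restrict Ω)
    filter_upwards [h1] with x hx
    rw [← eLpNorm_exponent_top] at hx
    have h2 : ENNReal.ofReal (Real.sqrt (‖f 0 x‖ ^ 2 + ‖f 1 x‖ ^ 2)) ≤ formNorm Ω f := by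
      rw [← Real.enorm_eq_ofReal (Real.sqrt_nonneg _)]
      exact hx
    exact (ENNReal.ofReal_le_iff_le_toReal hfin.ne).1 h2
  obtain ⟨u, hum, hub, hu⟩ := Dbi.linfty_main hC hΩ hne hb hc (f := f) (M := M)
    ENNReal.toReal_nonneg (fun j => (hf j).aestronglyMeasurable)
    (by
      intro j
      filter_upwards [hae] with x hx
      fin_cases j
      · exact (le_sqrt_left _ _ (norm_nonneg _)).trans hx
      · exact (le_sqrt_right _ _ (norm_nonneg _)).trans hx)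
    (fun φ h1 h2 h3 => hcl φ ⟨h1, h2, h3⟩)
  have hbd : eLpNorm u ⊤ (volume.restrict Ω) ≤ C.toNNReal * formNorm Ω f := by
    rw [eLpNorm_exponent_top]
    refine (eLpNormEssSup_le_of_ae_bound hub).trans (le_of_eq ?_)
    rw [ENNReal.ofReal_mul hC0, hM, ENNReal.ofReal_toReal hfin.ne]
    rfl
  refine ⟨u, ⟨hum, hbd.trans_lt (ENNReal.mul_lt_top ENNReal.coe_lt_top hfin)⟩, ?_, hbd⟩
  intro φ hφ j
  exact hu φ hφ.smooth hφ.compact hφ.inside j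

end Pool.Agent.Results.MP_26d61a_an.BoundedForms
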